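import Pool.Agent.Q8.KC.Defs
import Pool.Agent.Q55.Det.Defs

/-!
# The determinant classes of the Kunneth components: definitions
-/

open CategoryTheory AlgebraicGeometry

universe u v

namespace Pool.Agent.Q8.KC

open Pool.Agent.H914 Pool.Agent.H914.VarClass Pool.Agent.H914.VarClass.Obj
  Pool.Agent.H914.WeilCohomology Pool.Agent.TH133.PW Pool.Agent.Y133.Half Pool.Agent.Q55.Det

variable {k : Type u} [Field k] {𝒱 : VarClass k} {ops : CycleOps 𝒱}

/-- The external product `det f × det e` of the determinants of `f_0, …, f_n` and of `e_0, …, e_n`,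
in the cohomology of `X^(2n+2)`. -/
noncomputable def detPair (W : WeilCohomology.{u, v} ops) {X : 𝒱.Obj} (n : ℕ)
    (f e : Fin (n + 1) → W.H X) : W.H (dblPw X n) :=
  W.map (fst (pw X n) (pw X n)) (wedge W n f) * W.map (snd (pw X n) (pw X n)) (wedge W n e)

/-- The determinant class `det H^(2n-i)(X) × det H^i(X)` on `X^(2b)`, `n = dim X`, `b = dim H^i(X)`, is
a linear combination, with coefficients in the coefficient field, of classes of cycles of
codimension `n b`, for all bases `f` of `H^(2n-i)(X)` and `e` of `H^i(X)`. -/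
def DetPairAlgebraic (W : WeilCohomology.{u, v} ops) (X : 𝒱.Obj) (i : ℕ) : Prop :=
  ∀ (n : ℕ) (f e : Fin (n + 1) → W.H X), IsBasisOf (W.gr X (2 * X.dim - i)) f →
    IsBasisOf (W.gr X i) e →
    detPair W n f e ∈ spanCycles W (dblPw X n) (((n + 1) * X.dim : ℕ) : ℤ)

end Pool.Agent.Q8.KC
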