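import Pool.Agent.Q8.KC.Main
import Pool.Agent.Q8.KC.DefsD
import Pool.Agent.Q55.Det.Contr
import Pool.Agent.Q55.Det.ExtD
import Pool.Agent.Q55.Det.PrimF

/-!
# The Kunneth components and the determinants of the cohomology
-/

open CategoryTheory AlgebraicGeometry

universe u v

namespace Pool.Agent.Q8.KC

open Module
open Pool.Agent.H914 Pool.Agent.H914.VarClass Pool.Agent.H914.VarClass.Obj
  Pool.Agent.H914.WeilCohomology Pool.Agent.Y133.Half Pool.Agent.Q55.Det

variable {k : Type u} [Field k] {𝒱 : VarClass k} {ops : CycleOps 𝒱}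
  {W : WeilCohomology.{u, v} ops} {X Y Z : 𝒱.Obj}

/-- The matrix of the pairing of two families. -/
noncomputable def gram₂ (W : WeilCohomology.{u, v} ops) {X : 𝒱.Obj} {n : ℕ}
    (f f' : Fin (n + 1) → W.H X) : Matrix (Fin (n + 1)) (Fin (n + 1)) W.K :=
  fun k l => W.tr X (f k * f' l)

/-- The contraction of the product of two determinants. -/
theorem contract₂ (S : Sys W) {a b n : ℕ} {f f' : Fin (n + 1) → W.H X}
    (hf : ∀ j, f j ∈ W.gr X a) (hf' : ∀ j, f' j ∈ W.gr X b)
    (hd : detPair W n f f' ∈ S.C (dblPw X n)) :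
    ∃ (c : W.H (X.prod X)) (s : W.K), c ∈ S.C (X.prod X) ∧ s ≠ 0 ∧ c = s •
      ∑ σ : Equiv.Perm (Fin (n + 1)), ∑ τ : Equiv.Perm (Fin (n + 1)),
        ccoef (gram₂ W f f') σ τ • xp W (f (σ (Fin.last n))) (f' (τ (Fin.last n))) := by
  cases n with
  | zero =>
    refine ⟨detPair W 0 f f', 1, hd, one_ne_zero, ?_⟩
    rw [one_smul]
    have h1 : ∀ f : Fin (0 + 1) → W.H X, wedge W 0 f = ∑ σ : Equiv.Perm (Fin 1),
      ((Equiv.Perm.sign σ : ℤ) : W.K) • f (σ (Fin.last 0)) := fun _ => rfl
    have h2 : detPair W 0 f f' =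
      xp W (X := X) (Y := X) (∑ σ : Equiv.Perm (Fin 1), ((Equiv.Perm.sign σ : ℤ) : W.K) •
        f (σ (Fin.last 0))) (∑ σ : Equiv.Perm (Fin 1), ((Equiv.Perm.sign σ : ℤ) : W.K) •
        f' (σ (Fin.last 0))) := rfl
    rw [h2, xp_sum_sum]
    refine Finset.sum_congr rfl fun σ _ => Finset.sum_congr rfl fun τ _ => ?_
    rw [ccoef, Fin.prod_univ_zero, mul_one]
  | succ m =>
    obtain ⟨s, hs, hpair⟩ := pair_tens X W a b m
    have h0 : detPair W (m + 1) f f' =
        xp W (X := (pw X m).prod X) (Y := (pw X m).prod X)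
        (∑ σ : Equiv.Perm (Fin (m + 2)), ((Equiv.Perm.sign σ : ℤ) : W.K) •
          xp W (tens W m fun j => f (σ j.castSucc)) (f (σ (Fin.last (m + 1)))))
        (∑ τ : Equiv.Perm (Fin (m + 2)), ((Equiv.Perm.sign τ : ℤ) : W.K) •
          xp W (tens W m fun j => f' (τ j.castSucc)) (f' (τ (Fin.last (m + 1))))) := rfl
    refine ⟨W.push (snd (pw X m) (X.prod X)) (W.map (fst (pw X m) (X.prod X)) 1 *
      W.map (iota (pw X m) X) (detPair W (m + 1) f f')),
      (-1) ^ (a * ((m + 1) * b)) * s,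
      S.push _ (S.mul (S.map _ (S.one _)) (S.map _ hd)),
      mul_ne_zero (pow_ne_zero _ (neg_ne_zero.2 one_ne_zero)) hs, ?_⟩
    rw [h0, xp_sum_sum, map_sum, Finset.mul_sum, map_sum, Finset.smul_sum]
    refine Finset.sum_congr rfl fun σ _ => ?_
    rw [map_sum, Finset.mul_sum, map_sum, Finset.smul_sum]
    refine Finset.sum_congr rfl fun τ _ => ?_
    rw [map_smul, map_iota _ _ _ _ (PH.of (hf _)) (PH.of (tens_gr fun j => hf' _)),
      mul_smul_comm, mul_smul_comm, map_smul, map_smul, push_iota, one_mul]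
    rw [hpair _ _ (fun j => hf _) (fun j => hf' _), smul_smul, smul_smul, smul_smul, ccoef]
    congr 1
    simp only [gram₂]
    ring

lemma card_last {n : ℕ} (m : Fin (n + 1)) :
    (Finset.univ.filter fun τ : Equiv.Perm (Fin (n + 1)) => τ (Fin.last n) = m).card =
    (Finset.univ.filter fun τ : Equiv.Perm (Fin (n + 1)) =>
      τ (Fin.last n) = Fin.last n).card := by
  refine Finset.card_bij (fun τ _ => Equiv.swap m (Fin.last n) * τ) ?_ ?_ ?_
  · intro τ hτ
    rw [Finset.mem_filter] at hτ ⊢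
    refine ⟨Finset.mem_univ _, ?_⟩
    rw [Equiv.Perm.mul_apply, hτ.2, Equiv.swap_apply_left]
  · intro τ _ τ' _ h
    exact mul_left_cancel h
  · intro τ hτ
    rw [Finset.mem_filter] at hτ
    refine ⟨Equiv.swap m (Fin.last n) * τ, ?_, ?_⟩
    · rw [Finset.mem_filter]
      refine ⟨Finset.mem_univ _, ?_⟩
      rw [Equiv.Perm.mul_apply, hτ.2, Equiv.swap_apply_right]
    · rw [← mul_assoc, Equiv.swap_mul_self, one_mul]

/-- The operator given by the contraction of the product of two determinants. -/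
theorem corr_contract₂ {b n : ℕ} {f f' : Fin (n + 1) → W.H X}
    (hf' : ∀ j, f' j ∈ W.gr X b) (hG : (gram₂ W f f').det ≠ 0) {c : W.H (X.prod X)}
    {s : W.K} (hs : s ≠ 0) (hc : c = s •
      ∑ σ : Equiv.Perm (Fin (n + 1)), ∑ τ : Equiv.Perm (Fin (n + 1)),
        ccoef (gram₂ W f f') σ τ • xp W (f (σ (Fin.last n))) (f' (τ (Fin.last n)))) :
    (∃ κ : W.K, κ ≠ 0 ∧ ∀ m, W.corr c (f' m) = κ • f' m) ∧
      ∀ d, ∀ x ∈ W.gr X d, (∀ j, W.tr X (f j * x) = 0) → W.corr c x = 0 := by
  have h1 : ∀ d, ∀ x ∈ W.gr X d, W.corr c x = s • ∑ σ : Equiv.Perm (Fin (n + 1)),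
      ∑ τ : Equiv.Perm (Fin (n + 1)), (ccoef (gram₂ W f f') σ τ * ((-1) ^ (b * d) *
        W.tr X (f (σ (Fin.last n)) * x))) • f' (τ (Fin.last n)) := by
    intro d x hx
    have h2 : W.corr c x = corrL W X X c x := rfl
    rw [h2, hc, map_smul, LinearMap.smul_apply, map_sum, LinearMap.sum_apply]
    congr 1
    refine Finset.sum_congr rfl fun σ _ => ?_
    rw [map_sum, LinearMap.sum_apply]
    refine Finset.sum_congr rfl fun τ _ => ?_
    rw [map_smul, LinearMap.smul_apply]
    have h3 : corrL W X X (xp W (f (σ (Fin.last n))) (f' (τ (Fin.last n)))) x =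
        W.corr (xp W (f (σ (Fin.last n))) (f' (τ (Fin.last n)))) x := rfl
    rw [h3, corr_xp _ (PH.of (hf' _)) (PH.of hx), smul_smul]
  constructor
  · set N : ℕ := (Finset.univ.filter fun τ : Equiv.Perm (Fin (n + 1)) =>
      τ (Fin.last n) = Fin.last n).card with hN
    have hN0 : N ≠ 0 := by
      rw [hN, Finset.card_ne_zero]
      exact ⟨1, Finset.mem_filter.2 ⟨Finset.mem_univ _, rfl⟩⟩
    refine ⟨s * ((-1) ^ (b * b) * ((gram₂ W f f').det * N)), ?_, fun m => ?_⟩
    · refine mul_ne_zero hs (mul_ne_zero (pow_ne_zero _ (neg_ne_zero.2 one_ne_zero))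
        (mul_ne_zero hG ?_))
      exact_mod_cast hN0
    · rw [h1 _ _ (hf' m), Finset.sum_comm, mul_smul]
      congr 1
      have h4 : ∀ τ : Equiv.Perm (Fin (n + 1)), ∑ σ : Equiv.Perm (Fin (n + 1)),
          (ccoef (gram₂ W f f') σ τ * ((-1) ^ (b * b) *
            W.tr X (f (σ (Fin.last n)) * f' m))) • f' (τ (Fin.last n)) =
          if τ (Fin.last n) = m then ((-1) ^ (b * b) * (gram₂ W f f').det) • f' m
            else 0 := by
        intro τ
        rw [← Finset.sum_smul]
        have h5 : ∑ σ : Equiv.Perm (Fin (n + 1)), ccoef (gram₂ W f f') σ τ *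
            ((-1) ^ (b * b) * W.tr X (f (σ (Fin.last n)) * f' m)) =
            ((-1) ^ (b * b) * ((Equiv.Perm.sign τ : ℤ) : W.K)) *
            ∑ σ : Equiv.Perm (Fin (n + 1)), ((Equiv.Perm.sign σ : ℤ) : W.K) *
              ((∏ j : Fin n, gram₂ W f f' (σ j.castSucc) (τ j.castSucc)) *
                gram₂ W f f' (σ (Fin.last n)) m) := by
          rw [Finset.mul_sum]
          refine Finset.sum_congr rfl fun σ _ => ?_
          have h6 : W.tr X (f (σ (Fin.last n)) * f' m) =
              gram₂ W f f' (σ (Fin.last n)) m := rfl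
          rw [h6, ccoef]
          ring
        rw [h5, sum_sign_col]
        split_ifs with h
        · rw [h]
          congr 1
          have h7 : ((Equiv.Perm.sign τ : ℤ) : W.K) * ((Equiv.Perm.sign τ : ℤ) : W.K) = 1 := by
            rcases Int.units_eq_one_or (Equiv.Perm.sign τ) with h | h <;> rw [h] <;> norm_num
          calc (-1) ^ (b * b) * ((Equiv.Perm.sign τ : ℤ) : W.K) *
                (((Equiv.Perm.sign τ : ℤ) : W.K) * (gram₂ W f f').det)
              = (-1) ^ (b * b) * (((Equiv.Perm.sign τ : ℤ) : W.K) *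
                ((Equiv.Perm.sign τ : ℤ) : W.K)) * (gram₂ W f f').det := by ring
            _ = _ := by rw [h7, mul_one]
        · rw [mul_zero, zero_smul]
      rw [Finset.sum_congr rfl fun τ _ => h4 τ, ← Finset.sum_filter, Finset.sum_const,
        card_last m, ← hN, ← Nat.cast_smul_eq_nsmul W.K, smul_smul]
      congr 1
      ring
  · intro d x hx h
    rw [h1 d x hx, Finset.sum_eq_zero, smul_zero]
    intro σ _
    refine Finset.sum_eq_zero fun τ _ => ?_
    rw [h, mul_zero, mul_zero, zero_smul]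

lemma basis_sum {i n : ℕ} (e : Basis (Fin (n + 1)) W.K (W.gr X i)) {y : W.H X}
    (hy : y ∈ W.gr X i) : ∃ a : Fin (n + 1) → W.K, y = ∑ j, a j • (e j : W.H X) := by
  refine ⟨fun j => e.repr ⟨y, hy⟩ j, ?_⟩
  have h4 := congrArg (Subtype.val) (e.sum_repr ⟨y, hy⟩)
  refine h4.symm.trans ?_
  rw [AddSubmonoidClass.coe_finsetSum]
  rfl

lemma gram₂_det_ne {i n : ℕ} (hi : i ≤ 2 * X.dim)
    (f : Basis (Fin (n + 1)) W.K (W.gr X (2 * X.dim - i)))
    (e : Basis (Fin (n + 1)) W.K (W.gr X i)) :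
    (gram₂ W (fun j => (f j : W.H X)) fun j => (e j : W.H X)).det ≠ 0 := by
  intro h0
  obtain ⟨v, hv, hv0⟩ := Matrix.exists_vecMul_eq_zero_iff.2 h0
  apply hv
  have h1 : (∑ k, v k • (f k : W.H X)) = 0 := by
    refine Pool.Agent.TH132.A.pair_zero (i := 2 * X.dim - i)
      (Submodule.sum_mem _ fun k _ => Submodule.smul_mem _ _ (f k).2) fun b hb => ?_
    rw [show 2 * X.dim - (2 * X.dim - i) = i by omega] at hb
    obtain ⟨a, rfl⟩ := basis_sum e hb
    rw [Finset.mul_sum, map_sum]
    refine Finset.sum_eq_zero fun l _ => ?_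
    have h2 := congrFun hv0 l
    rw [Matrix.vecMul, dotProduct, Pi.zero_apply] at h2
    rw [mul_smul_comm, map_smul, Finset.sum_mul, map_sum]
    have h3 : ∑ x, W.tr X (v x • (f x : W.H X) * (e l : W.H X)) = 0 := by
      rw [← h2]
      refine Finset.sum_congr rfl fun k _ => ?_
      rw [smul_mul_assoc, map_smul, smul_eq_mul]
      rfl
    rw [h3, smul_zero]
  have h2 : ∑ k, v k • f k = 0 := by
    apply Subtype.ext
    rw [AddSubmonoidClass.coe_finsetSum]
    exact h1
  funext k
  exact Fintype.linearIndependent_iff.1 f.linearIndependent v h2 k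

/-- The Kunneth projector from the determinants. -/
theorem kp_of_det (S : Sys W) {i n : ℕ} (hi : i ≤ 2 * X.dim)
    (f : Basis (Fin (n + 1)) W.K (W.gr X (2 * X.dim - i)))
    (e : Basis (Fin (n + 1)) W.K (W.gr X i))
    (hd : detPair W n (fun j => (f j : W.H X)) (fun j => (e j : W.H X)) ∈ S.C (dblPw X n)) :
    ∃ c ∈ S.C (X.prod X), W.corr c = proj (W.isInternal X) i := by
  obtain ⟨c, s, hc, hs, hcs⟩ := contract₂ S (fun j => (f j).2) (fun j => (e j).2) hd
  obtain ⟨⟨κ, hκ, h1⟩, h2⟩ := corr_contract₂ (fun j => (e j).2)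
    (gram₂_det_ne hi f e) hs hcs
  refine ⟨κ⁻¹ • c, Submodule.smul_mem _ _ hc, ?_⟩
  apply gr_ext (W.isInternal X)
  intro l x hx
  rw [corr_smul, LinearMap.smul_apply]
  by_cases hl : l = i
  · subst hl
    obtain ⟨a, rfl⟩ := basis_sum e hx
    rw [proj_same _ hx, map_sum, Finset.smul_sum]
    refine Finset.sum_congr rfl fun m _ => ?_
    rw [map_smul, h1, smul_smul, smul_smul]
    congr 1
    field_simp
  · rw [proj_ne _ hx hl, h2 l x hx, smul_zero]
    intro j
    exact W.tr_eq_zero (W.mul_mem (f j).2 hx) (by omega)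

/-- The determinants from the Kunneth projector. -/
theorem det_of_kp (S : Sys W) {i n : ℕ} (hi : i ≤ 2 * X.dim)
    (f : Basis (Fin (n + 1)) W.K (W.gr X (2 * X.dim - i)))
    (e : Basis (Fin (n + 1)) W.K (W.gr X i)) {γ : W.H (X.prod X)} (hγ : γ ∈ S.C (X.prod X))
    (hγi : W.corr γ = proj (W.isInternal X) i) :
    detPair W n (fun j => (f j : W.H X)) (fun j => (e j : W.H X)) ∈ S.C (dblPw X n) := by
  set G := gram₂ W (fun j => (f j : W.H X)) fun j => (e j : W.H X) with hG
  have hGu : IsUnit G.det := (gram₂_det_ne hi f e).isUnit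
  set g : Fin (n + 1) → W.gr X (2 * X.dim - i) := fun k => ∑ j, G⁻¹ k j • f j with hg
  have hgf : ∀ k l, W.tr X ((g k : W.H X) * (e l : W.H X)) = if k = l then 1 else 0 := by
    intro k l
    have h1 := congrFun (congrFun (Matrix.nonsing_inv_mul G hGu) k) l
    rw [Matrix.mul_apply, Matrix.one_apply] at h1
    rw [← h1, hg]
    simp only
    rw [AddSubmonoidClass.coe_finsetSum, Finset.sum_mul, map_sum]
    refine Finset.sum_congr rfl fun j _ => ?_
    rw [Submodule.coe_smul, smul_mul_assoc, map_smul, smul_eq_mul]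
    rfl
  have hψ : ∑ k, xp W (g k : W.H X) (e k : W.H X) = ((-1 : W.K) ^ (i * i)) • γ := by
    rw [← sub_eq_zero]
    apply corr_inj
    apply gr_ext (W.isInternal X)
    intro l x hx
    have e1 : ∀ d : W.H (X.prod X), W.corr d x = corrL W X X d x := fun _ => rfl
    rw [LinearMap.zero_apply, e1, map_sub, LinearMap.sub_apply, map_sum, LinearMap.sum_apply,
      map_smul, LinearMap.smul_apply, ← e1, sub_eq_zero, hγi]
    have e2 : ∀ k, (corrL W X X (xp W (g k : W.H X) (e k : W.H X))) x =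
        ((-1 : W.K) ^ (i * l) * W.tr X ((g k : W.H X) * x)) • (e k : W.H X) := by
      intro k
      rw [← e1, corr_xp _ (PH.of (e k).2) (PH.of hx)]
    rw [Finset.sum_congr rfl fun k _ => e2 k]
    by_cases hl : l = i
    · subst hl
      rw [proj_same _ hx]
      obtain ⟨a, rfl⟩ := basis_sum e hx
      have h5 : ∀ k, W.tr X ((g k : W.H X) * ∑ j, a j • (e j : W.H X)) = a k := by
        intro k
        rw [Finset.mul_sum, map_sum, Finset.sum_eq_single k]
        · rw [mul_smul_comm, map_smul, hgf, if_pos rfl, smul_eq_mul, mul_one]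
        · intro j _ hj
          rw [mul_smul_comm, map_smul, hgf, if_neg (Ne.symm hj), smul_zero]
        · intro h; exact absurd (Finset.mem_univ _) h
      simp only [h5, mul_smul]
      rw [← Finset.smul_sum]
    · rw [proj_ne _ hx hl, smul_zero, Finset.sum_eq_zero]
      intro k _
      rw [W.tr_eq_zero (W.mul_mem (g k).2 hx) (by omega), mul_zero, zero_smul]
  have hmem : ∑ k, xp W (g k : W.H X) (e k : W.H X) ∈ S.C (X.prod X) := by
    rw [hψ]
    exact Submodule.smul_mem _ _ hγ
  have h7 := det_mem S (fun k => (g k).2) (fun k => (e k).2) hmem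
  have h8 : wedge W n (fun k => (g k : W.H X)) =
      f.det g • wedge W n (fun k => (f k : W.H X)) :=
    wedge_lin f (W.gr X (2 * X.dim - i)).subtype g
  have hli : LinearIndependent W.K g := by
    rw [Fintype.linearIndependent_iff]
    intro c hc l
    have h9 := congrArg (fun y : W.gr X (2 * X.dim - i) => W.tr X ((y : W.H X) * (e l : W.H X))) hc
    simp only [AddSubmonoidClass.coe_finsetSum, Submodule.coe_smul, Finset.sum_mul, map_sum,
      smul_mul_assoc, map_smul, hgf, ZeroMemClass.coe_zero, zero_mul, map_zero, smul_eq_mul,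
      mul_ite, mul_one, mul_zero] at h9
    rw [Finset.sum_ite_eq' Finset.univ l] at h9
    simpa using h9
  have hdet : IsUnit (f.det g) := by
    rw [← Basis.is_basis_iff_det]
    refine ⟨hli, hli.span_eq_top_of_card_eq_finrank' ?_⟩
    rw [Fintype.card_fin, Module.finrank_eq_card_basis f, Fintype.card_fin]
  rw [h8, xp_smul_left] at h7
  have h9 := Submodule.smul_mem _ (f.det g)⁻¹ h7
  rw [inv_smul_smul₀ hdet.ne_zero] at h9
  exact h9

/-! ### The theorems -/

open Pool.Agent.H281R3.HT Pool.Agent.W458.MF Pool.Agent.W536.RR Pool.Agent.TH133.PW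

lemma alg_of_span' {j : ℕ} {c : W.H Z} (h : c ∈ spanCycles W Z j) : c ∈ algSpan W Z := by
  have h1 : spanCycles W Z j ≤ algSpan W Z := by
    refine Submodule.span_le.2 ?_
    rintro _ ⟨p, hp, z, hz, rfl⟩
    exact cl_alg hz
  exact h1 h

lemma detPair_gr {i n : ℕ} {f e : Fin (n + 1) → W.H X} (hi : i ≤ 2 * X.dim)
    (hf : ∀ j, f j ∈ W.gr X (2 * X.dim - i)) (he : ∀ j, e j ∈ W.gr X i) :
    detPair W n f e ∈ W.gr (dblPw X n) (2 * ((n + 1) * X.dim)) := by
  have h1 : detPair W n f e ∈ W.gr (dblPw X n) ((n + 1) * (2 * X.dim - i) + (n + 1) * i) :=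
    xp_gr (wedge_gr hf) (wedge_gr he)
  have e1 : (n + 1) * (2 * X.dim - i) + (n + 1) * i = 2 * ((n + 1) * X.dim) := by
    rw [← mul_add, Nat.sub_add_cancel hi]
    ring
  rwa [e1] at h1

/-- **The Kunneth component and the determinant class.** -/
theorem span_iff_det {i : ℕ} (hi : i ≤ 2 * X.dim) :
    ComponentInSpan W X i ↔ DetPairAlgebraic W X i := by
  constructor
  · intro h n f e hf he
    obtain ⟨b, hb⟩ := exists_basis he
    obtain ⟨b', hb'⟩ := exists_basis hf
    have heb : e = fun j => (b j : W.H X) := funext fun j => (hb j).symm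
    have hfb : f = fun j => (b' j : W.H X) := funext fun j => (hb' j).symm
    subst heb
    subst hfb
    obtain ⟨γ, hγ, hγi⟩ := linS_iff.2 h
    exact spanCycles_of_algSpan (det_of_kp (algSys W) hi b' b hγ hγi)
      (detPair_gr hi (fun j => (b' j).2) fun j => (b j).2)
  · intro h
    rw [← linS_iff]
    by_cases h0 : W.gr X i = ⊥
    · exact Kp.of_bot h0
    have hpos : finrank W.K (W.gr X i) ≠ 0 := by
      intro h1
      exact h0 (Submodule.finrank_eq_zero.1 h1)
    obtain ⟨n, hn⟩ : ∃ n, finrank W.K (W.gr X i) = n + 1 :=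
      ⟨finrank W.K (W.gr X i) - 1, by omega⟩
    have hn' : finrank W.K (W.gr X (2 * X.dim - i)) = n + 1 := by
      rw [← Pool.Agent.TH132.A.finrank_gr_eq hi, hn]
    let e : Basis (Fin (n + 1)) W.K (W.gr X i) := finBasisOfFinrankEq W.K (W.gr X i) hn
    let f : Basis (Fin (n + 1)) W.K (W.gr X (2 * X.dim - i)) :=
      finBasisOfFinrankEq W.K (W.gr X (2 * X.dim - i)) hn'
    obtain ⟨c, hc, hci⟩ := kp_of_det (algSys W) hi f e
      (alg_of_span' (h n _ _ (isBasisOf f) (isBasisOf e)))
    exact ⟨c, hc, hci⟩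

/-- The components in the degrees below the middle. -/
theorem all_of_low {T : QS W} (h : ∀ i < X.dim, T.Kp X i) (i : ℕ) : T.Kp X i := by
  have h1 : ∀ i, i ≠ X.dim → T.Kp X i := by
    intro i hi
    rcases Nat.lt_or_ge i X.dim with h2 | h2
    · exact h i h2
    · rcases Nat.lt_or_ge (2 * X.dim) i with h3 | h3
      · exact Kp.of_bot (W.gr_eq_bot X _ h3)
      · have h4 := Kp.dual (h (2 * X.dim - i) (by omega)) (by omega)
        rwa [show 2 * X.dim - (2 * X.dim - i) = i by omega] at h4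
  by_cases hi : i = X.dim
  · subst hi
    have h2 : (1 : Module.End W.K (W.H X)) = ∑ i ∈ Finset.range (2 * X.dim + 1),
        proj (W.isInternal X) i :=
      (sum_proj (W.isInternal X) (N := 2 * X.dim + 1)
        (fun i hi => W.gr_eq_bot X i (by omega))).symm
    have h3 : T.Op X X (∑ i ∈ (Finset.range (2 * X.dim + 1)).erase X.dim,
        proj (W.isInternal X) i) :=
      QS.Op.sum fun i hi => h1 i (Finset.ne_of_mem_erase hi)
    have h4 := (QS.Op.one (T := T) (X := X)).sub h3
    rw [h2, ← Finset.sum_erase_add _ _ (Finset.mem_range.2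
      (show X.dim < 2 * X.dim + 1 by omega)), add_sub_cancel_left] at h4
    exact h4
  · exact h1 i hi

/-- **The conjecture C and the determinant classes.** -/
theorem all_iff_det : (∀ i, ComponentInSpan W X i) ↔ ∀ i < X.dim, DetPairAlgebraic W X i := by
  constructor
  · intro h i hi
    exact (span_iff_det (by omega)).1 (h i)
  · intro h i
    exact linS_iff.1 (all_of_low (fun i hi => linS_iff.2
      ((span_iff_det (by omega)).2 (h i hi))) i)

/-- **One theory and all theories.** -/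
theorem one_iff_det {𝒲 : Set (WeilCohomology.{u, v} ops)} (hW : W ∈ 𝒲) (h𝒲 : SameTracesAll 𝒲 X)
    {i : ℕ} (hi : i ≤ 2 * X.dim) : DetPairAlgebraic W X i ↔ OneProjectorForAll 𝒲 X i := by
  rw [← span_iff_det hi]
  constructor
  · intro h
    exact oneProjector_of_span h𝒲 hW h
  · rintro ⟨P, hP, hPW⟩
    exact ⟨_, Submodule.subset_span ⟨P, hP, rfl⟩, hPW W hW⟩

end Pool.Agent.Q8.KC
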