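import Pool.Agent.TH133.PW.KunDefs
import Pool.Agent.Y133.Half.PwDefs

/-!
# The algebraicity of the Kunneth components: definitions
-/

open CategoryTheory AlgebraicGeometry

universe u v

namespace Pool.Agent.Q8.KC

open Pool.Agent.H914 Pool.Agent.H914.VarClass Pool.Agent.H914.VarClass.Obj
  Pool.Agent.H914.WeilCohomology Pool.Agent.TH133.PW

variable {k : Type u} [Field k] {𝒱 : VarClass k} {ops : CycleOps 𝒱}

/-- The Kunneth component `π_i` of `X` is algebraic: some cycle of codimension `dim X` with
rational coefficients on `X × X` induces the projector onto `H ^ i(X)`. -/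
def ComponentAlgebraic (W : WeilCohomology.{u, v} ops) (X : 𝒱.Obj) (i : ℕ) : Prop :=
  ∃ P, (X.prod X).IsCyc X.dim P ∧ InducesProjector W X i P

/-- The Kunneth component `π_i` of `X` is a linear combination, with coefficients in the coefficient
field of the theory `W`, of classes of cycles of codimension `dim X` on `X × X`. -/
def ComponentInSpan (W : WeilCohomology.{u, v} ops) (X : 𝒱.Obj) (i : ℕ) : Prop :=
  ProjectorInSpan (W.gr X) i (cycleOperators W X X.dim)

/-- The degree `i` occurs in the component of degree `j` of `X × Z`: `i ≤ j` and `H ^ i(X)` and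
`H ^ (j - i)(Z)` are both nonzero. -/
def OccursIn (W : WeilCohomology.{u, v} ops) (X Z : 𝒱.Obj) (j i : ℕ) : Prop :=
  i ≤ j ∧ W.gr X i ≠ ⊥ ∧ W.gr Z (j - i) ≠ ⊥

end Pool.Agent.Q8.KC
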