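import Pool.Agent.Q8.KC.Sys
import Pool.Agent.TH132.A.HLf

/-!
# Cutting down the Kunneth projectors of a product
-/

open CategoryTheory AlgebraicGeometry

universe u v

namespace Pool.Agent.Q8.KC

open Module
open Pool.Agent.H914 Pool.Agent.H914.VarClass Pool.Agent.H914.VarClass.Obj
  Pool.Agent.H914.WeilCohomology Pool.Agent.Y133.Half Pool.Agent.Q55.Fin

variable {k : Type u} [Field k] {𝒱 : VarClass k} {ops : CycleOps 𝒱}
  {W : WeilCohomology.{u, v} ops} {X Y Z : 𝒱.Obj} {T : QS W}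

lemma proj_zero_of_bot {i : ℕ} (h : W.gr X i = ⊥) : proj (W.isInternal X) i = 0 := by
  apply LinearMap.ext
  intro a
  have h1 := proj_mem (W.isInternal X) i a
  rw [h] at h1
  exact (Submodule.mem_bot _).1 h1

lemma bot_of_proj_zero {i : ℕ} (h : proj (W.isInternal X) i = 0) : W.gr X i = ⊥ := by
  rw [← range_proj (W.isInternal X) i, h, LinearMap.range_zero]

lemma Kp.of_bot {i : ℕ} (h : W.gr X i = ⊥) : T.Kp X i := by
  unfold QS.Kp
  rw [proj_zero_of_bot h]
  exact QS.Op.zero

lemma str_proj (i : ℕ) : str W X (proj (W.isInternal X) i) =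
    (((-1 : ℚ) ^ i * (finrank W.K (W.gr X i) : ℚ) : ℚ) : W.K) := by
  rw [str, par_mul_proj, map_smul, trace_proj, smul_eq_mul]
  push_cast
  rfl

lemma proj_mul_proj_ne {m l : ℕ} (h : m ≠ l) :
    proj (W.isInternal X) m * proj (W.isInternal X) l = 0 := by
  apply LinearMap.ext
  intro a
  rw [Module.End.mul_apply, proj_ne _ (proj_mem _ _ _) (Ne.symm h), LinearMap.zero_apply]

lemma finrank_ne {i : ℕ} (h : W.gr X i ≠ ⊥) : (finrank W.K (W.gr X i) : ℚ) ≠ 0 := by
  have h1 : finrank W.K (W.gr X i) ≠ 0 := by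
    intro h0
    exact h (Submodule.finrank_eq_zero.1 h0)
  exact_mod_cast h1

/-- The contraction with a Kunneth projector. -/
theorem Kp.cut_proj {j l : ℕ} (h : T.Kp (X.prod Y) j) (hl : l ≤ j) (hY : T.Kp Y l)
    (hne : W.gr Y l ≠ ⊥) : T.Kp X (j - l) := by
  refine Kp.cut h hl hY (q := (-1) ^ l * (finrank W.K (W.gr Y l) : ℚ)) ?_ ?_ ?_
  · intro m hm
    rw [proj_mul_proj_ne hm, str, mul_zero, map_zero]
  · exact mul_ne_zero (pow_ne_zero _ (neg_ne_zero.2 one_ne_zero)) (finrank_ne hne)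
  · rw [proj_mul_proj, str_proj]

/-- A class of degree two in the system with a nonzero rational top power. -/
def Pol (T : QS W) (Y : 𝒱.Obj) : Prop :=
  ∃ ξ ∈ W.gr Y 2, T.C Y ξ ∧ ∃ q : ℚ, q ≠ 0 ∧ W.tr Y (ξ ^ Y.dim) = (q : W.K)

lemma pow_mem' {ξ : W.H Y} (h : ξ ∈ W.gr Y 2) (b : ℕ) : ξ ^ b ∈ W.gr Y (2 * b) := by
  induction b with
  | zero => rw [pow_zero]; exact W.one_mem Y
  | succ b ih =>
    rw [pow_succ, mul_add, mul_one]
    exact W.mul_mem ih h

lemma pow_C {ξ : W.H Y} (h : T.C Y ξ) (b : ℕ) : T.C Y (ξ ^ b) := by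
  induction b with
  | zero => rw [pow_zero]; exact T.one Y
  | succ b ih => rw [pow_succ]; exact T.mul ih h

/-- The operator `y ↦ tr (v y) u`. -/
lemma corr_uv {b : ℕ} {u v : W.H Y} (hu : u ∈ W.gr Y (2 * b)) :
    W.corr (xp W v u) = ((W.tr Y) ∘ₗ (LinearMap.mulLeft W.K v)).smulRight u := by
  apply gr_ext (W.isInternal Y)
  intro i z hz
  rw [corr_xp v (PH.of hu) (PH.of hz), LinearMap.smulRight_apply, LinearMap.comp_apply,
    LinearMap.mulLeft_apply, mul_assoc 2 b i, pow_mul, neg_one_sq, one_pow, one_mul]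

/-- The contraction with a cycle: the components of `X` from a component of `X × Y`. -/
theorem Kp.cut_pol {j b : ℕ} (hY : Pol T Y) (h : T.Kp (X.prod Y) j) (hb : b ≤ Y.dim)
    (hj : 2 * b ≤ j) : T.Kp X (j - 2 * b) := by
  obtain ⟨ξ, hξ, hξC, q, hq, hξq⟩ := hY
  have hu := pow_mem' hξ b
  have hop : T.Op Y Y (((W.tr Y) ∘ₗ (LinearMap.mulLeft W.K (ξ ^ (Y.dim - b)))).smulRight
      (ξ ^ b)) :=
    ⟨_, T.mul (T.map _ (pow_C hξC _)) (T.map _ (pow_C hξC _)), corr_uv hu⟩
  have hstr : ∀ m, str W Y (proj (W.isInternal Y) m *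
      ((W.tr Y) ∘ₗ (LinearMap.mulLeft W.K (ξ ^ (Y.dim - b)))).smulRight (ξ ^ b)) =
      if m = 2 * b then (q : W.K) else 0 := by
    intro m
    have e1 : par (W.isInternal Y) * (proj (W.isInternal Y) m *
        ((W.tr Y) ∘ₗ (LinearMap.mulLeft W.K (ξ ^ (Y.dim - b)))).smulRight (ξ ^ b)) =
        ((W.tr Y) ∘ₗ (LinearMap.mulLeft W.K (ξ ^ (Y.dim - b)))).smulRight
          ((-1 : W.K) ^ m • proj (W.isInternal Y) m (ξ ^ b)) := by
      apply LinearMap.ext
      intro z
      rw [← mul_assoc, par_mul_proj, Module.End.mul_apply, LinearMap.smulRight_apply,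
        LinearMap.smulRight_apply, map_smul, LinearMap.smul_apply]
    rw [str, e1, LinearMap.trace_smulRight, LinearMap.comp_apply, LinearMap.mulLeft_apply,
      mul_smul_comm, map_smul, smul_eq_mul]
    split_ifs with hm
    · subst hm
      rw [proj_same _ hu, ← pow_add, Nat.sub_add_cancel hb, hξq, pow_mul, neg_one_sq, one_pow,
        one_mul]
    · rw [proj_ne _ hu (Ne.symm hm), mul_zero, map_zero, mul_zero]
  refine Kp.cut h hj hop (q := q) (fun m hm => ?_) hq ?_
  · rw [hstr, if_neg hm]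
  · rw [hstr, if_pos rfl]

/-- The adjoint of a projection. -/
theorem Kp.dual {i : ℕ} (h : T.Kp X i) (hi : i ≤ 2 * X.dim) : T.Kp X (2 * X.dim - i) := by
  obtain ⟨u', hu', hadj⟩ := QS.Op.exists_adj h
  have h1 : u' = proj (W.isInternal X) (2 * X.dim - i) := by
    apply gr_ext (W.isInternal X)
    intro l b hb
    rw [← sub_eq_zero]
    apply nondeg_right
    intro a
    rw [mul_sub, map_sub, ← hadj a b, sub_eq_zero]
    refine gr_induction (W.isInternal X) (p := fun a =>
      W.tr X (proj (W.isInternal X) i a * b) =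
        W.tr X (a * proj (W.isInternal X) (2 * X.dim - i) b)) ?_ ?_ a
    · intro m a ha
      by_cases hm : m = i
      · subst hm
        by_cases hl : l = 2 * X.dim - m
        · subst hl
          rw [proj_same _ ha, proj_same _ hb]
        · rw [proj_same _ ha, proj_ne _ hb hl, mul_zero, map_zero]
          exact W.tr_eq_zero (W.mul_mem ha hb) (by omega)
      · rw [proj_ne _ ha hm, zero_mul, map_zero]
        by_cases hl : l = 2 * X.dim - i
        · subst hl
          rw [proj_same _ hb]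
          exact (W.tr_eq_zero (W.mul_mem ha hb) (by omega)).symm
        · rw [proj_ne _ hb hl, mul_zero, map_zero]
    · intro a a' ha ha'
      rw [map_add, add_mul, add_mul, map_add, map_add, ha, ha']
  unfold QS.Kp
  rw [← h1]
  exact hu'

/-- The Kunneth projectors of a product. -/
theorem Kp.prod {j : ℕ} (h : ∀ i ≤ j, W.gr X i ≠ ⊥ → W.gr Y (j - i) ≠ ⊥ →
    T.Kp X i ∧ T.Kp Y (j - i)) : T.Kp (X.prod Y) j := by
  unfold QS.Kp
  rw [proj_prod]
  refine QS.Op.sum fun i hi => ?_
  rw [Finset.mem_range] at hi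
  by_cases h1 : W.gr X i = ⊥
  · have h2 : T.Kp X i := Kp.of_bot h1
    rw [proj_zero_of_bot h1]
    have e : extOp W (0 : Module.End W.K (W.H X)) (proj (W.isInternal Y) (j - i)) = 0 := by
      apply ext_kunneth_lin
      intro a b
      rw [extOp_tmul, LinearMap.zero_apply, LinearMap.zero_apply, map_zero, zero_mul]
    rw [e]
    exact QS.Op.zero
  by_cases h2 : W.gr Y (j - i) = ⊥
  · rw [proj_zero_of_bot h2]
    have e : extOp W (proj (W.isInternal X) i) (0 : Module.End W.K (W.H Y)) = 0 := by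
      apply ext_kunneth_lin
      intro a b
      rw [extOp_tmul, LinearMap.zero_apply, LinearMap.zero_apply, map_zero, mul_zero]
    rw [e]
    exact QS.Op.zero
  obtain ⟨h3, h4⟩ := h i (by omega) h1 h2
  exact QS.Op.ext h3 h4

/-- The contraction with the diagonal: the case where only one odd degree contributes. -/
theorem Kp.cut_diag {l : ℕ} (hX : Pol T X) (h : T.Kp (X.prod X) (2 * l)) (hl : l % 2 = 1)
    (hne : W.gr X l ≠ ⊥) (hodd : ∀ i ≤ 2 * l, i % 2 = 1 → i ≠ l →
      W.gr X i = ⊥ ∨ W.gr X (2 * l - i) = ⊥) : T.Kp X l := by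
  have h1 := contraction h (QS.Op.one (T := T) (X := X))
  simp only [mul_one] at h1
  have h2 : T.Op X X (∑ i ∈ (Finset.range (2 * l + 1)).erase l,
      str W X (proj (W.isInternal X) (2 * l - i)) • proj (W.isInternal X) i) := by
    refine QS.Op.sum fun i hi => ?_
    rw [Finset.mem_erase, Finset.mem_range] at hi
    rw [str_proj]
    by_cases hgr : W.gr X (2 * l - i) = ⊥
    · have h0 : finrank W.K (W.gr X (2 * l - i)) = 0 := by
        rw [hgr, finrank_bot]
      rw [h0, Nat.cast_zero, mul_zero, Rat.cast_zero, zero_smul]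
      exact QS.Op.zero
    · refine QS.Op.smul _ ?_
      rcases Nat.mod_two_eq_zero_or_one i with hi2 | hi2
      · have hb : 2 * l - i ≤ 2 * X.dim := by
          by_contra hcon
          exact hgr (W.gr_eq_bot X _ (by omega))
        have h3 := Kp.cut_pol hX h (b := (2 * l - i) / 2) (by omega) (by omega)
        rwa [show 2 * l - 2 * ((2 * l - i) / 2) = i by omega] at h3
      · rcases hodd i (by omega) hi2 hi.1 with h3 | h3
        · exact Kp.of_bot h3
        · exact absurd h3 hgr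
  have h3 := h1.sub h2
  rw [← Finset.sum_erase_add _ _ (Finset.mem_range.2 (show l < 2 * l + 1 by omega)),
    add_sub_cancel_left, show 2 * l - l = l by omega, str_proj] at h3
  have hq : (-1 : ℚ) ^ l * (finrank W.K (W.gr X l) : ℚ) ≠ 0 :=
    mul_ne_zero (pow_ne_zero _ (neg_ne_zero.2 one_ne_zero)) (finrank_ne hne)
  have h4 := h3.smul ((-1 : ℚ) ^ l * (finrank W.K (W.gr X l) : ℚ))⁻¹
  rwa [smul_smul, ← Rat.cast_mul, inv_mul_cancel₀ hq, Rat.cast_one, one_smul] at h4

end Pool.Agent.Q8.KC
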