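import Pool.Agent.Q8.KC.Pow
import Pool.Agent.Q8.KC.Defs
import Pool.Agent.Y133.Half.TateSS

/-!
# The Kunneth components of the powers of a variety: the theorems
-/

open CategoryTheory AlgebraicGeometry

universe u v

namespace Pool.Agent.Q8.KC

open Module
open Pool.Agent.H914 Pool.Agent.H914.VarClass Pool.Agent.H914.VarClass.Obj
  Pool.Agent.H914.WeilCohomology Pool.Agent.Y133.Half Pool.Agent.Q55.Fin Pool.Agent.TH133.PW
  Pool.Agent.TH122.Km Pool.Agent.H281R3.HT Pool.Agent.W458.MF Pool.Agent.W536.RR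

variable {k : Type u} [Field k] {𝒱 : VarClass k} {ops : CycleOps 𝒱}
  {W : WeilCohomology.{u, v} ops} {X Y Z : 𝒱.Obj}

lemma cl_alg {p : ℕ} {z : Y.Cycles} (hz : Y.IsCyc p z) : W.cl Y z ∈ algSpan W Y :=
  Submodule.subset_span (Set.mem_iUnion.2 ⟨p, z, hz, rfl⟩)

/-- The component of degree zero of an operator given by a class. -/
lemma proj_corr (c : W.H (X.prod X)) {l : ℕ} {x : W.H X} (hx : x ∈ W.gr X l) :
    proj (W.isInternal X) l (W.corr c x) =
      W.corr (proj (W.isInternal (X.prod X)) (2 * X.dim) c) x := by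
  refine gr_induction (W.isInternal (X.prod X)) (p := fun c =>
    proj (W.isInternal X) l (W.corr c x) =
      W.corr (proj (W.isInternal (X.prod X)) (2 * X.dim) c) x) ?_ ?_ c
  · intro m c hc
    have h1 := W.push_mem (snd X X) (W.mul_mem hc (W.map_mem (fst X X) hx))
    rw [← corr_apply] at h1
    have hd : (X.prod X).dim = X.dim + X.dim := dim_prod _ _
    by_cases hm : m = 2 * X.dim
    · subst hm
      rw [proj_same _ hc]
      have e : ((2 * X.dim + l : ℕ) : ℤ) + 2 * ((X.dim : ℤ) - (X.prod X).dim) = (l : ℕ) := by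
        rw [hd]; push_cast; ring
      rw [e, grZ_natCast] at h1
      exact proj_same _ h1
    · rw [proj_ne _ hc hm, corr_zero, LinearMap.zero_apply]
      by_cases hneg : ((m + l : ℕ) : ℤ) + 2 * ((X.dim : ℤ) - (X.prod X).dim) < 0
      · rw [grZ_of_neg hneg] at h1
        rw [(Submodule.mem_bot _).1 h1, map_zero]
      · obtain ⟨n, hn⟩ : ∃ n : ℕ, (n : ℤ) =
            ((m + l : ℕ) : ℤ) + 2 * ((X.dim : ℤ) - (X.prod X).dim) :=
          ⟨(((m + l : ℕ) : ℤ) + 2 * ((X.dim : ℤ) - (X.prod X).dim)).toNat, by omega⟩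
        rw [← hn, grZ_natCast] at h1
        rw [proj_ne _ h1 (by rw [hd] at hn; omega)]
  · intro a b ha hb
    rw [corr_add, LinearMap.add_apply, map_add, ha, hb, map_add, corr_add, LinearMap.add_apply]

/-- The class of a projector is homogeneous. -/
lemma corr_proj_class {c : W.H (X.prod X)} {i : ℕ} (hc : W.corr c = proj (W.isInternal X) i) :
    W.corr (proj (W.isInternal (X.prod X)) (2 * X.dim) c) = proj (W.isInternal X) i := by
  apply gr_ext (W.isInternal X)
  intro l x hx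
  rw [← proj_corr c hx, hc]
  by_cases hl : l = i
  · subst hl
    rw [proj_same _ hx, proj_same _ hx]
  · rw [proj_ne _ hx hl, map_zero]

lemma isProjector_iff {i : ℕ} {P : Module.End W.K (W.H X)} :
    IsProjector (W.gr X) i P ↔ P = proj (W.isInternal X) i := by
  constructor
  · intro h
    exact gr_ext (W.isInternal X) fun j a ha => by rw [h j a ha, isProjector_proj W X i j a ha]
  · rintro rfl
    exact isProjector_proj W X i

theorem ratS_iff {i : ℕ} : (ratS W).Kp X i ↔ ComponentAlgebraic W X i := by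
  constructor
  · rintro ⟨c, hc, hci⟩
    have h1 := Pool.Agent.W552.AS.proj hc X.dim
    obtain ⟨P, hP, hPc⟩ := h1
    refine ⟨P, hP, ?_⟩
    unfold InducesProjector
    rw [isProjector_iff, hPc]
    exact corr_proj_class hci
  · rintro ⟨P, hP, hPi⟩
    unfold InducesProjector at hPi
    rw [isProjector_iff] at hPi
    exact ⟨_, Pool.Agent.W552.AS.of ⟨P, hP, rfl⟩, hPi⟩

theorem linS_iff {i : ℕ} : (linS W).Kp X i ↔ ComponentInSpan W X i := by
  constructor
  · rintro ⟨c, hc, hci⟩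
    refine ⟨proj (W.isInternal X) i, ?_, isProjector_proj W X i⟩
    rw [← corr_proj_class hci]
    have hc' : c ∈ algSpan W (X.prod X) := hc
    refine algSpan_induction (p := fun c => W.corr (H914.proj (W.isInternal (X.prod X))
      (2 * X.dim) c) ∈ Submodule.span W.K (cycleOperators W X X.dim)) ?_ ?_ ?_ ?_ hc'
    · rw [map_zero, corr_zero]; exact Submodule.zero_mem _
    · intro a b ha hb; rw [map_add, corr_add]; exact Submodule.add_mem _ ha hb
    · intro t a ha; rw [map_smul, corr_smul]; exact Submodule.smul_mem _ _ ha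
    · intro j z hz
      by_cases hj : j = X.dim
      · subst hj
        rw [proj_same _ (W.cl_mem hz)]
        exact Submodule.subset_span ⟨z, hz, rfl⟩
      · rw [proj_ne _ (W.cl_mem hz) (by omega), corr_zero]
        exact Submodule.zero_mem _
  · rintro ⟨P, hP, hPi⟩
    rw [isProjector_iff] at hPi
    subst hPi
    have h1 : Submodule.span W.K (cycleOperators W X X.dim) ≤ (algSys W).Op X X := by
      rw [Submodule.span_le]
      rintro _ ⟨z, hz, rfl⟩
      exact Sys.Op.corr (cl_alg hz)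
    obtain ⟨c, hc, hcP⟩ := Sys.mem_Op.1 (h1 hP)
    exact ⟨c, hc, hcP⟩

lemma pol_rat {D : X.Cycles} (hD : X.IsCyc 1 D) (h : W.tr X (W.cl X D ^ X.dim) ≠ 0) :
    Pol (ratS W) X := by
  have h1 : Pool.Agent.W552.AS W X (W.cl X D) := Pool.Agent.W552.AS.of ⟨D, hD, rfl⟩
  obtain ⟨q, hq⟩ := (show Pool.Agent.W552.AS W X (W.cl X D ^ X.dim) from
    pow_C (T := ratS W) h1 _).tr
  refine ⟨W.cl X D, W.cl_mem hD, h1, q, ?_, hq⟩
  rintro rfl
  rw [hq, Rat.cast_zero] at h
  exact h rfl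

lemma pol_lin {D : X.Cycles} (hD : X.IsCyc 1 D) (h : W.tr X (W.cl X D ^ X.dim) ≠ 0) :
    Pol (linS W) X := by
  obtain ⟨ξ, hξ, hC, q, hq, hξq⟩ := pol_rat hD h
  obtain ⟨q', hq'⟩ := (show Pool.Agent.W552.AS W X (W.cl X D ^ X.dim) from
    pow_C (T := ratS W) (Pool.Agent.W552.AS.of ⟨D, hD, rfl⟩) _).tr
  refine ⟨W.cl X D, W.cl_mem hD, cl_alg hD, q', ?_, hq'⟩
  rintro rfl
  rw [hq', Rat.cast_zero] at h
  exact h rfl

/-- **The components of a power and of the variety.** -/
theorem pw_iff {D : X.Cycles} (hD : X.IsCyc 1 D) (h0 : W.tr X (W.cl X D ^ X.dim) ≠ 0) {m : ℕ}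
    (hm : 3 ≤ m) (j : ℕ) : ComponentAlgebraic W (pw X m) j ↔
      ∀ i, OccursIn W X (pw X (m - 1)) j i → ComponentAlgebraic W X i := by
  constructor
  · rintro h i ⟨hi, h1, h2⟩
    exact ratS_iff.1 (Kp.of_pw (pol_rat hD h0) hm (ratS_iff.2 h) hi h1 h2)
  · intro h
    obtain ⟨M, rfl⟩ : ∃ M, m = M + 1 := ⟨m - 1, by omega⟩
    exact ratS_iff.1 (Kp.pw_of M j fun i hi h1 h2 => ratS_iff.2 (h i ⟨hi, h1, h2⟩))

/-- **One component of a power decides.** -/
theorem one_iff {D : X.Cycles} (hD : X.IsCyc 1 D) (h0 : W.tr X (W.cl X D ^ X.dim) ≠ 0) {m : ℕ}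
    (hm : 3 ≤ m) {j : ℕ} (h1 : 3 * X.dim ≤ j) (h2 : j + 3 * X.dim ≤ 2 * (pw X m).dim)
    (hj : W.gr (pw X m) j ≠ ⊥) :
    ComponentAlgebraic W (pw X m) j ↔ ∀ r i, ComponentAlgebraic W (pw X r) i :=
  ⟨fun h r i => ratS_iff.1 (Kp.all_of_one (pol_rat hD h0) hm h1 h2 hj (ratS_iff.2 h) r i),
    fun h => h m j⟩

/-! ### All theories -/

/-- The external product of cycles. -/
lemma exists_ext {P : (X.prod X).Cycles} {Q : (Y.prod Y).Cycles} (hP : (X.prod X).IsCyc X.dim P)
    (hQ : (Y.prod Y).IsCyc Y.dim Q) : ∃ R, ((X.prod Y).prod (X.prod Y)).IsCyc (X.prod Y).dim R ∧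
      ∀ W : WeilCohomology.{u, v} ops,
        W.corr (W.cl _ R) = extOp W (W.corr (W.cl _ P)) (W.corr (W.cl _ Q)) := by
  refine ⟨ops.mul (ops.pull (q1 X Y) P) (ops.pull (q2 X Y) Q), ?_, fun W => ?_⟩
  · have h1 := ops.mul_mem (ops.pull_mem (q1 X Y) hP) (ops.pull_mem (q2 X Y) hQ)
    rwa [show X.dim + Y.dim = (X.prod Y).dim from (dim_prod _ _).symm] at h1
  · rw [W.cl_mul, W.cl_pull, W.cl_pull]
    exact Sys.corr_ext_class _ (PH.of' (by omega) (W.cl_mem hQ))

lemma one_prod {𝒲 : Set (WeilCohomology.{u, v} ops)} (hX : ∀ i, OneProjectorForAll 𝒲 X i)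
    (hY : ∀ i, OneProjectorForAll 𝒲 Y i) (j : ℕ) : OneProjectorForAll 𝒲 (X.prod Y) j := by
  choose P hP hPW using hX
  choose Q hQ hQW using hY
  choose R hR hRW using fun i l => exists_ext (ops := ops) (hP i) (hQ l)
  have hcyc : ∀ s : Finset ℕ, ((X.prod Y).prod (X.prod Y)).IsCyc (X.prod Y).dim
      (∑ i ∈ s, R i (j - i)) := by
    classical
    intro s
    induction s using Finset.induction_on with
    | empty => rw [Finset.sum_empty]; exact SmVar.IsCyc.zero _ _
    | insert a s ha ih =>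
      rw [Finset.sum_insert ha]
      exact SmVar.IsCyc.add (hR a _) ih
  have hcorr : ∀ (W : WeilCohomology.{u, v} ops) (s : Finset ℕ),
      W.corr (W.cl _ (∑ i ∈ s, R i (j - i))) = ∑ i ∈ s, W.corr (W.cl _ (R i (j - i))) := by
    classical
    intro W s
    induction s using Finset.induction_on with
    | empty => rw [Finset.sum_empty, Finset.sum_empty, map_zero, corr_zero]
    | insert a s ha ih =>
      rw [Finset.sum_insert ha, Finset.sum_insert ha, map_add, corr_add, ih]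
  refine ⟨_, hcyc (Finset.range (j + 1)), fun W hW => ?_⟩
  unfold InducesProjector
  rw [isProjector_iff, hcorr, proj_prod]
  refine Finset.sum_congr rfl fun i _ => ?_
  rw [hRW, isProjector_iff.1 (hPW i W hW), isProjector_iff.1 (hQW (j - i) W hW)]

lemma one_pw {𝒲 : Set (WeilCohomology.{u, v} ops)} (hX : ∀ i, OneProjectorForAll 𝒲 X i) :
    ∀ r i, OneProjectorForAll 𝒲 (pw X r) i
  | 0, i => hX i
  | r + 1, i => one_prod (one_pw hX r) hX i

/-- **One component of a power and one theory decide.** -/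
theorem theory_iff {D : X.Cycles} (hD : X.IsCyc 1 D) (h0 : W.tr X (W.cl X D ^ X.dim) ≠ 0)
    {𝒲 : Set (WeilCohomology.{u, v} ops)} (hW : W ∈ 𝒲) (h𝒲 : SameTracesAll 𝒲 X) {m : ℕ}
    (hm : 3 ≤ m) {j : ℕ} (h1 : 3 * X.dim ≤ j) (h2 : j + 3 * X.dim ≤ 2 * (pw X m).dim)
    (hj : W.gr (pw X m) j ≠ ⊥) :
    ComponentInSpan W (pw X m) j ↔ ∀ r i, OneProjectorForAll 𝒲 (pw X r) i := by
  constructor
  · intro h
    have h3 : ∀ i, (linS W).Kp X i := fun i =>
      Kp.all_of_one (pol_lin hD h0) hm h1 h2 hj (linS_iff.2 h) 0 i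
    exact one_pw fun i => oneProjector_of_span h𝒲 hW (linS_iff.1 (h3 i))
  · intro h
    obtain ⟨P, hP, hPW⟩ := h m j
    exact ⟨_, Submodule.subset_span ⟨P, hP, rfl⟩, hPW W hW⟩

end Pool.Agent.Q8.KC
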