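import Pool.Agent.Q8.KC.Cut

/-!
# The Kunneth projectors of the powers of a variety
-/

open CategoryTheory AlgebraicGeometry

universe u v

namespace Pool.Agent.Q8.KC

open Module
open Pool.Agent.H914 Pool.Agent.H914.VarClass Pool.Agent.H914.VarClass.Obj
  Pool.Agent.H914.WeilCohomology Pool.Agent.Y133.Half Pool.Agent.Q55.Fin

variable {k : Type u} [Field k] {𝒱 : VarClass k} {ops : CycleOps 𝒱}
  {W : WeilCohomology.{u, v} ops} {X Y Z : 𝒱.Obj} {T : QS W}

/-- The degrees of the cohomology of a product. -/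
lemma ne_bot_prod {l : ℕ} (h : W.gr (X.prod Y) l ≠ ⊥) :
    ∃ i ≤ l, W.gr X i ≠ ⊥ ∧ W.gr Y (l - i) ≠ ⊥ := by
  by_contra hcon
  push Not at hcon
  apply h
  apply bot_of_proj_zero
  rw [proj_prod]
  refine Finset.sum_eq_zero fun i hi => ?_
  rw [Finset.mem_range] at hi
  apply ext_kunneth_lin
  intro a b
  rw [extOp_tmul, LinearMap.zero_apply]
  by_cases h1 : W.gr X i = ⊥
  · rw [proj_zero_of_bot h1, LinearMap.zero_apply, map_zero, zero_mul]
  · rw [proj_zero_of_bot (hcon i (by omega) h1), LinearMap.zero_apply, map_zero, mul_zero]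

lemma prod_ne_bot {i l : ℕ} (hX : W.gr X i ≠ ⊥) (hY : W.gr Y l ≠ ⊥) :
    W.gr (X.prod Y) (i + l) ≠ ⊥ := by
  obtain ⟨x, hx, hx0⟩ := Submodule.exists_mem_ne_zero_of_ne_bot hX
  obtain ⟨y, hy, hy0⟩ := Submodule.exists_mem_ne_zero_of_ne_bot hY
  intro h
  have h1 : xp W x y ∈ W.gr (X.prod Y) (i + l) := W.mul_mem (W.map_mem _ hx) (W.map_mem _ hy)
  rw [h] at h1
  exact hy0 (xp_eq_zero_left hx0 ((Submodule.mem_bot _).1 h1))

lemma le_of_ne_bot {i : ℕ} (h : W.gr X i ≠ ⊥) : i ≤ 2 * X.dim := by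
  by_contra hcon
  exact h (W.gr_eq_bot X _ (by omega))

lemma ne_bot_dual {i : ℕ} (h : W.gr X i ≠ ⊥) : W.gr X (2 * X.dim - i) ≠ ⊥ := by
  intro h0
  apply h
  apply Submodule.finrank_eq_zero.1
  rw [Pool.Agent.TH132.A.finrank_gr_eq (le_of_ne_bot h), h0, finrank_bot]

lemma even_ne_bot (hX : Pol T X) {b : ℕ} (hb : b ≤ X.dim) : W.gr X (2 * b) ≠ ⊥ := by
  obtain ⟨ξ, hξ, -, q, hq, hξq⟩ := hX
  intro h
  have h1 := pow_mem' hξ b
  rw [h] at h1
  have h2 : ξ ^ b = 0 := (Submodule.mem_bot _).1 h1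
  have h3 : ξ ^ X.dim = 0 := by
    rw [← Nat.add_sub_cancel' hb, pow_add, h2, zero_mul]
  rw [h3, map_zero] at hξq
  exact hq (by exact_mod_cast hξq.symm)

/-! ### Powers -/

lemma dim_pw (X : 𝒱.Obj) (m : ℕ) : (pw X m).dim = (m + 1) * X.dim := by
  induction m with
  | zero => rw [zero_add, one_mul]; rfl
  | succ m ih =>
    have h : (pw X (m + 1)).dim = (pw X m).dim + X.dim := dim_prod _ _
    rw [h, ih]
    ring

lemma even_pw (hX : Pol T X) : ∀ (m b : ℕ), b ≤ (m + 1) * X.dim → W.gr (pw X m) (2 * b) ≠ ⊥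
  | 0, b, hb => even_ne_bot hX (by omega)
  | m + 1, b, hb => by
    have h1 : min b X.dim ≤ X.dim := min_le_right _ _
    have h2 : b - min b X.dim ≤ (m + 1) * X.dim := by
      have : (m + 1 + 1) * X.dim = (m + 1) * X.dim + X.dim := by ring
      omega
    have h3 : W.gr ((pw X m).prod X) (2 * (b - min b X.dim) + 2 * min b X.dim) ≠ ⊥ :=
      prod_ne_bot (even_pw hX m _ h2) (even_ne_bot hX h1)
    rwa [show 2 * (b - min b X.dim) + 2 * min b X.dim = 2 * b by omega] at h3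

/-- An odd class of a power comes with an odd class of one factor. -/
lemma odd_part : ∀ (m s : ℕ), s % 2 = 1 → W.gr (pw X m) s ≠ ⊥ →
    ∃ l, l % 2 = 1 ∧ l ≤ s ∧ W.gr X l ≠ ⊥ ∧ s ≤ l + 2 * (m * X.dim)
  | 0, s, hs, h => ⟨s, hs, le_rfl, h, by omega⟩
  | m + 1, s, hs, h => by
    obtain ⟨i, hi, h1, h2⟩ := ne_bot_prod (X := pw X m) (Y := X) h
    have h3 := le_of_ne_bot h2
    have h4 := le_of_ne_bot h1
    rw [dim_pw] at h4
    have e : (m + 1) * X.dim = m * X.dim + X.dim := by ring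
    rcases Nat.mod_two_eq_zero_or_one i with hi2 | hi2
    · exact ⟨s - i, by omega, by omega, h2, by rw [e]; omega⟩
    · obtain ⟨l, hl, hl1, hl2, hl3⟩ := odd_part m i hi2 h1
      exact ⟨l, hl, by omega, hl2, by rw [e]; omega⟩

/-- Removing factors. -/
lemma Kp.cut_pw (hX : Pol T X) (m : ℕ) : ∀ (r j b : ℕ), T.Kp (pw X (m + r)) j →
    b ≤ r * X.dim → 2 * b ≤ j → T.Kp (pw X m) (j - 2 * b)
  | 0, j, b, h, hb, _ => by
    obtain rfl : b = 0 := by omega
    exact h
  | r + 1, j, b, h, hb, hj => by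
    have e : (r + 1) * X.dim = r * X.dim + X.dim := by ring
    have h1 : T.Kp (pw X (m + r)) (j - 2 * min b X.dim) :=
      Kp.cut_pol (X := pw X (m + r)) hX h (min_le_right _ _) (by omega)
    have h2 := Kp.cut_pw hX m r _ (b - min b X.dim) h1 (by omega) (by omega)
    rwa [show j - 2 * min b X.dim - 2 * (b - min b X.dim) = j - 2 * b by omega] at h2

/-- The components of the square from a component of a power. -/
lemma Kp.sq (hX : Pol T X) {m j s : ℕ} (hm : 1 ≤ m) (h : T.Kp (pw X m) j) (hs : s ≤ j)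
    (hpar : s % 2 = j % 2) (hj : j ≤ s + 2 * ((m - 1) * X.dim)) : T.Kp (X.prod X) s := by
  have h0 : T.Kp (pw X (1 + (m - 1))) j := by rwa [show 1 + (m - 1) = m by omega]
  have h1 := Kp.cut_pw hX 1 (m - 1) j ((j - s) / 2) h0 (by omega) (by omega)
  rwa [show j - 2 * ((j - s) / 2) = s by omega] at h1

/-- **The occurring components of `X` from a component of a power of `X`.** -/
theorem Kp.of_pw (hX : Pol T X) {m j : ℕ} (hm : 3 ≤ m) (h : T.Kp (pw X m) j) {i : ℕ}
    (hi : i ≤ j) (h1 : W.gr X i ≠ ⊥) (h2 : W.gr (pw X (m - 1)) (j - i) ≠ ⊥) : T.Kp X i := by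
  have hi2 := le_of_ne_bot h1
  have hs2 := le_of_ne_bot h2
  rw [dim_pw, Nat.sub_add_cancel (by omega : 1 ≤ m)] at hs2
  obtain ⟨M, rfl⟩ : ∃ M, m = M + 3 := ⟨m - 3, by omega⟩
  have eM : (M + 3 - 1) * X.dim = M * X.dim + 2 * X.dim := by
    rw [show M + 3 - 1 = M + 2 by omega]; ring
  have eM' : (M + 3) * X.dim = M * X.dim + 3 * X.dim := by ring
  rw [eM'] at hs2
  rcases Nat.mod_two_eq_zero_or_one (j - i) with hpar | hpar
  · -- the complementary degree is even
    rcases le_or_gt j (i + 2 * ((M + 3 - 1) * X.dim)) with hj | hj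
    · have h3 := Kp.sq hX (by omega) h (s := i) hi (by omega) hj
      exact Kp.cut_pol (X := X) (b := 0) hX h3 (Nat.zero_le _) (Nat.zero_le _)
    · have h3 := Kp.sq hX (by omega) h (s := j - 2 * ((M + 3 - 1) * X.dim)) (by omega) (by omega)
        (by omega)
      rw [eM] at h3 hj
      have h4 := Kp.cut_pol (X := X) (b := (j - 2 * (M * X.dim + 2 * X.dim) - i) / 2) hX h3
        (by omega) (by omega)
      rwa [show j - 2 * (M * X.dim + 2 * X.dim) -
        2 * ((j - 2 * (M * X.dim + 2 * X.dim) - i) / 2) = i by omega] at h4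
  rcases Nat.mod_two_eq_zero_or_one i with hi0 | hi1
  · -- `i` even, `j` odd
    obtain ⟨l, hl, hl1, hl2, hl3⟩ := odd_part _ _ hpar h2
    have h3 := Kp.sq hX (by omega) h (s := i + l) (by omega) (by omega) (by omega)
    have h4 := Kp.cut_pol (X := X) (b := i / 2) hX h3 (by omega) (by omega)
    rw [show i + l - 2 * (i / 2) = l by omega] at h4
    have h5 := Kp.cut_proj (X := X) h3 (by omega) h4 hl2
    rwa [show i + l - l = i by omega] at h5
  · -- `i` odd, `j` even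
    have hex : ∃ l, l % 2 = 1 ∧ W.gr X l ≠ ⊥ := ⟨i, hi1, h1⟩
    classical
    set i₀ := Nat.find hex with hi₀
    obtain ⟨ho, hne⟩ := Nat.find_spec hex
    rw [← hi₀] at ho hne
    have hmin : ∀ l, l % 2 = 1 → W.gr X l ≠ ⊥ → i₀ ≤ l := fun l hl hl' =>
      Nat.find_min' hex ⟨hl, hl'⟩
    have h0d := le_of_ne_bot hne
    have hmax : ∀ l, l % 2 = 1 → W.gr X l ≠ ⊥ → l + i₀ ≤ 2 * X.dim := by
      intro l hl hl'
      have h3 := le_of_ne_bot hl'
      have h4 := hmin (2 * X.dim - l) (by omega) (ne_bot_dual hl')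
      omega
    obtain ⟨l, hl, hl1, hl2, hl3⟩ := odd_part _ _ hpar h2
    have hb1 := hmin l hl hl2
    have hb2 := hmax l hl hl2
    have hb3 := hmin i hi1 h1
    have hb4 := hmax i hi1 h1
    have hb5 := hmax i₀ ho hne
    rw [eM] at hl3
    rcases le_or_gt j (2 * i₀ + 2 * ((M + 3 - 1) * X.dim)) with hj | hj
    · have h3 := Kp.sq hX (by omega) h (s := 2 * i₀) (by omega) (by omega) (by omega)
      have h4 : T.Kp X i₀ := by
        refine Kp.cut_diag hX h3 ho hne fun n hn hn1 hn2 => ?_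
        by_contra hcon
        push Not at hcon
        have h5 := hmin n hn1 hcon.1
        have h6 := hmin (2 * i₀ - n) (by omega) hcon.2
        omega
      have h5 := Kp.sq hX (by omega) h (s := i + i₀) (by omega) (by omega) (by omega)
      have h6 := Kp.cut_proj (X := X) h5 (by omega) h4 hne
      rwa [show i + i₀ - i₀ = i by omega] at h6
    · rw [eM] at hj
      set l₀ := 2 * X.dim - i₀ with hl₀
      have hne' : W.gr X l₀ ≠ ⊥ := ne_bot_dual hne
      have h3 := Kp.sq hX (by omega) h (s := 2 * l₀) (by omega) (by omega)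
        (by rw [eM]; omega)
      have h4 : T.Kp X l₀ := by
        refine Kp.cut_diag hX h3 (by omega) hne' fun n hn hn1 hn2 => ?_
        by_contra hcon
        push Not at hcon
        have h5 := hmax n hn1 hcon.1
        have h6 := hmax (2 * l₀ - n) (by omega) hcon.2
        omega
      have h5 := Kp.sq hX (by omega) h (s := i + l₀) (by omega) (by omega)
        (by rw [eM]; omega)
      have h6 := Kp.cut_proj (X := X) h5 (by omega) h4 hne'
      rwa [show i + l₀ - l₀ = i by omega] at h6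

/-- The converse. -/
theorem Kp.pw_of : ∀ (m j : ℕ), (∀ i ≤ j, W.gr X i ≠ ⊥ → W.gr (pw X m) (j - i) ≠ ⊥ → T.Kp X i) →
    T.Kp (pw X (m + 1)) j
  | 0, j, h => by
    refine Kp.prod (X := X) (Y := X) fun i hi h1 h2 => ⟨h i hi h1 h2, ?_⟩
    refine h (j - i) (by omega) h2 ?_
    rw [show j - (j - i) = i by omega]
    exact h1
  | m + 1, j, h => by
    refine Kp.prod (X := pw X (m + 1)) (Y := X) fun a ha h1 h2 => ⟨?_, ?_⟩
    · refine Kp.pw_of m a fun i hi h3 h4 => h i (by omega) h3 ?_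
      have h5 : W.gr ((pw X m).prod X) ((a - i) + (j - a)) ≠ ⊥ := prod_ne_bot h4 h2
      rwa [show (a - i) + (j - a) = j - i by omega] at h5
    · refine h (j - a) (by omega) h2 ?_
      rw [show j - (j - a) = a by omega]
      exact h1

/-- The Kunneth projectors of all powers. -/
theorem Kp.all_pw (h : ∀ i, T.Kp X i) : ∀ (r j : ℕ), T.Kp (pw X r) j
  | 0, j => h j
  | r + 1, j => Kp.pw_of r j fun i _ _ _ => h i

/-- Odd degrees of the cohomology of a power. -/
lemma odd_pw (hX : Pol T X) {i₀ : ℕ} (hne : W.gr X i₀ ≠ ⊥) {r s : ℕ} (hr : 1 ≤ r)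
    (hpar : s % 2 = i₀ % 2) (h1 : i₀ ≤ s) (h2 : s + i₀ ≤ 2 * ((r + 1) * X.dim)) :
    W.gr (pw X r) s ≠ ⊥ := by
  obtain ⟨R, rfl⟩ : ∃ R, r = R + 1 := ⟨r - 1, by omega⟩
  have hd := le_of_ne_bot hne
  have e : (R + 1 + 1) * X.dim = R * X.dim + 2 * X.dim := by ring
  have e' : (R + 1) * X.dim = R * X.dim + X.dim := by ring
  rw [e] at h2
  rcases le_or_gt (s - i₀) (2 * ((R + 1) * X.dim)) with h3 | h3
  · have h4 : W.gr ((pw X R).prod X) (2 * ((s - i₀) / 2) + i₀) ≠ ⊥ :=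
      prod_ne_bot (even_pw hX R _ (by omega)) hne
    rwa [show 2 * ((s - i₀) / 2) + i₀ = s by omega] at h4
  · rw [e'] at h3
    have h4 : W.gr ((pw X R).prod X) (2 * ((s - (2 * X.dim - i₀)) / 2) + (2 * X.dim - i₀)) ≠ ⊥ :=
      prod_ne_bot (even_pw hX R _ (by rw [e']; omega)) (ne_bot_dual hne)
    rwa [show 2 * ((s - (2 * X.dim - i₀)) / 2) + (2 * X.dim - i₀) = s by omega] at h4

/-- **One component of a power decides.** -/
theorem Kp.all_of_one (hX : Pol T X) {m j : ℕ} (hm : 3 ≤ m) (h1 : 3 * X.dim ≤ j)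
    (h2 : j + 3 * X.dim ≤ 2 * (pw X m).dim) (hj : W.gr (pw X m) j ≠ ⊥)
    (h : T.Kp (pw X m) j) (r i : ℕ) : T.Kp (pw X r) i := by
  refine Kp.all_pw (fun i => ?_) r i
  by_cases hi : W.gr X i = ⊥
  · exact Kp.of_bot hi
  have hi2 := le_of_ne_bot hi
  rw [dim_pw] at h2
  obtain ⟨M, rfl⟩ : ∃ M, m = M + 3 := ⟨m - 3, by omega⟩
  have eM : (M + 3 + 1) * X.dim = M * X.dim + 4 * X.dim := by ring
  have eM' : (M + 2 + 1) * X.dim = M * X.dim + 3 * X.dim := by ring
  rw [eM] at h2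
  refine Kp.of_pw hX hm h (i := i) (by omega) hi ?_
  rw [show M + 3 - 1 = M + 2 by omega]
  rcases Nat.mod_two_eq_zero_or_one (j - i) with hpar | hpar
  · have h3 := even_pw hX (M + 2) ((j - i) / 2) (by rw [eM']; omega)
    rwa [show 2 * ((j - i) / 2) = j - i by omega] at h3
  · have hex : ∃ l, l % 2 = 1 ∧ W.gr X l ≠ ⊥ := by
      rcases Nat.mod_two_eq_zero_or_one i with hi0 | hi1
      · obtain ⟨l, hl, -, hl2, -⟩ := odd_part _ _ (by omega : j % 2 = 1) hj
        exact ⟨l, hl, hl2⟩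
      · exact ⟨i, hi1, hi⟩
    obtain ⟨l, hl, hl2⟩ := hex
    have hl3 := le_of_ne_bot hl2
    rcases le_or_gt l X.dim with hl4 | hl4
    · exact odd_pw hX hl2 (by omega) (by omega) (by omega) (by rw [eM']; omega)
    · exact odd_pw hX (ne_bot_dual hl2) (by omega) (by omega) (by omega) (by rw [eM']; omega)

end Pool.Agent.Q8.KC
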