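import Pool.Agent.Q55.Fin.Ptr
import Pool.Agent.W552.AS
import Pool.Agent.TH133.PW.Kun
import Pool.Agent.Y133.Half.TateSys

/-!
# Partial traces of the Kunneth projectors
-/

open CategoryTheory AlgebraicGeometry

universe u v

namespace Pool.Agent.Q8.KC

open Module
open Pool.Agent.H914 Pool.Agent.H914.VarClass Pool.Agent.H914.VarClass.Obj
  Pool.Agent.H914.WeilCohomology Pool.Agent.Y133.Half Pool.Agent.Q55.Fin

variable {k : Type u} [Field k] {𝒱 : VarClass k} {ops : CycleOps 𝒱}
  {W : WeilCohomology.{u, v} ops} {X Y Z : 𝒱.Obj}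

/-- A system of classes, stable under sums, products, pull-backs, push-forwards and multiplication
by rational numbers. -/
structure QS (W : WeilCohomology.{u, v} ops) where
  /-- the classes on `X` -/
  C : ∀ X : 𝒱.Obj, W.H X → Prop
  even : ∀ {X : 𝒱.Obj} {c : W.H X}, C X c → c ∈ PH W X 0
  zero : ∀ X : 𝒱.Obj, C X 0
  add : ∀ {X : 𝒱.Obj} {c d : W.H X}, C X c → C X d → C X (c + d)
  smul : ∀ {X : 𝒱.Obj} (q : ℚ) {c : W.H X}, C X c → C X ((q : W.K) • c)
  one : ∀ X : 𝒱.Obj, C X (1 : W.H X)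
  mul : ∀ {X : 𝒱.Obj} {c d : W.H X}, C X c → C X d → C X (c * d)
  map : ∀ {X Y : 𝒱.Obj} (f : X ⟶ Y) {c : W.H Y}, C Y c → C X (W.map f c)
  push : ∀ {X Y : 𝒱.Obj} (f : X ⟶ Y) {c : W.H X}, C X c → C Y (W.push f c)

/-- The system of the classes of rational cycles. -/
def ratS (W : WeilCohomology.{u, v} ops) : QS W where
  C X c := Pool.Agent.W552.AS W X c
  even hc := Pool.Agent.W552.AS.ind (p := fun c => c ∈ PH W _ 0)
    (fun j c hc => PH.of' (by omega) (alg_gr hc))
    (fun _ _ h h' => Submodule.add_mem _ h h') hc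
  zero _ := Pool.Agent.W552.AS.zero
  add h h' := h.add h'
  smul q _ h := h.smul q
  one _ := Pool.Agent.W552.AS.one
  mul h h' := h.mul h'
  map f _ h := h.map f
  push f _ h := h.push f

/-- The system of the combinations of classes of cycles. -/
noncomputable def linS (W : WeilCohomology.{u, v} ops) : QS W where
  C X c := c ∈ (algSys W).C X
  even hc := (algSys W).even hc
  zero _ := Submodule.zero_mem _
  add h h' := Submodule.add_mem _ h h'
  smul _ _ h := Submodule.smul_mem _ _ h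
  one X := (algSys W).one X
  mul h h' := (algSys W).mul h h'
  map f _ h := (algSys W).map f h
  push f _ h := (algSys W).push f h

namespace QS

variable (T : QS W)

/-- The operators given by the classes of the system. -/
def Op (X Y : 𝒱.Obj) (u : W.H X →ₗ[W.K] W.H Y) : Prop := ∃ c, T.C (X.prod Y) c ∧ W.corr c = u

/-- The Kunneth projector is given by a class of the system. -/
def Kp (X : 𝒱.Obj) (i : ℕ) : Prop := T.Op X X (proj (W.isInternal X) i)

variable {T}

lemma Op.add {u u' : W.H X →ₗ[W.K] W.H Y} (h : T.Op X Y u) (h' : T.Op X Y u') :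
    T.Op X Y (u + u') := by
  obtain ⟨c, hc, rfl⟩ := h
  obtain ⟨d, hd, rfl⟩ := h'
  exact ⟨c + d, T.add hc hd, corr_add W c d⟩

lemma Op.zero : T.Op X Y (0 : W.H X →ₗ[W.K] W.H Y) := ⟨0, T.zero _, corr_zero W⟩

lemma Op.smul (q : ℚ) {u : W.H X →ₗ[W.K] W.H Y} (h : T.Op X Y u) :
    T.Op X Y ((q : W.K) • u) := by
  obtain ⟨c, hc, rfl⟩ := h
  exact ⟨(q : W.K) • c, T.smul q hc, corr_smul W _ c⟩

lemma Op.sub {u u' : W.H X →ₗ[W.K] W.H Y} (h : T.Op X Y u) (h' : T.Op X Y u') :
    T.Op X Y (u - u') := by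
  have h1 : u - u' = u + ((-1 : ℚ) : W.K) • u' := by
    apply LinearMap.ext
    intro x
    rw [LinearMap.sub_apply, LinearMap.add_apply, LinearMap.smul_apply, Rat.cast_neg,
      Rat.cast_one, neg_smul, one_smul, sub_eq_add_neg]
  rw [h1]
  exact h.add (h'.smul _)

lemma Op.sum {ι : Type*} {s : Finset ι} {u : ι → W.H X →ₗ[W.K] W.H Y}
    (h : ∀ i ∈ s, T.Op X Y (u i)) : T.Op X Y (∑ i ∈ s, u i) := by
  classical
  induction s using Finset.induction_on with
  | empty => rw [Finset.sum_empty]; exact Op.zero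
  | insert a s ha ih =>
    rw [Finset.sum_insert ha]
    exact (h a (Finset.mem_insert_self _ _)).add
      (ih fun i hi => h i (Finset.mem_insert_of_mem hi))

lemma Op.comp {u : W.H Y →ₗ[W.K] W.H Z} {w : W.H X →ₗ[W.K] W.H Y} (hu : T.Op Y Z u)
    (hw : T.Op X Y w) : T.Op X Z (u ∘ₗ w) := by
  obtain ⟨d, hd, rfl⟩ := hu
  obtain ⟨c, hc, rfl⟩ := hw
  exact ⟨_, T.push _ (T.mul (T.map _ hc) (T.map _ hd)), corr_comp' c (T.even hd)⟩

lemma Op.mul {u w : Module.End W.K (W.H X)} (hu : T.Op X X u) (hw : T.Op X X w) :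
    T.Op X X (u * w) := hu.comp hw

lemma Op.one : T.Op X X (1 : Module.End W.K (W.H X)) :=
  ⟨_, T.push _ (T.one X), Sys.corr_diag_one⟩

lemma Op.ext {a : Module.End W.K (W.H X)} {b : Module.End W.K (W.H Y)} (ha : T.Op X X a)
    (hb : T.Op Y Y b) : T.Op (X.prod Y) (X.prod Y) (extOp W a b) := by
  obtain ⟨c, hc, rfl⟩ := ha
  obtain ⟨d, hd, rfl⟩ := hb
  exact ⟨_, T.mul (T.map _ hc) (T.map _ hd), Sys.corr_ext_class c (T.even hd)⟩

lemma Op.exists_adj {u : W.H X →ₗ[W.K] W.H Y} (hu : T.Op X Y u) :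
    ∃ u', T.Op Y X u' ∧ Adj W u u' := by
  obtain ⟨c, hc, rfl⟩ := hu
  exact ⟨_, ⟨_, T.map (swap Y X) hc, rfl⟩, tr_corr' (T.even hc)⟩

lemma Op.exists_pt {f : Module.End W.K (W.H (X.prod Y))} (hf : T.Op (X.prod Y) (X.prod Y) f) :
    ∃ B, T.Op X X B ∧ IsPt f B := by
  obtain ⟨c, hc, rfl⟩ := hf
  exact ⟨_, ⟨_, T.push _ (T.mul hc (T.map _ (T.push _ (T.one Y)))), rfl⟩, isPt_ptc (T.even hc)⟩

end QS

/-- The projections of a product. -/
lemma proj_prod (n : ℕ) : proj (W.isInternal (X.prod Y)) n = ∑ i ∈ Finset.range (n + 1),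
    extOp W (proj (W.isInternal X) i) (proj (W.isInternal Y) (n - i)) := by
  apply LinearMap.ext
  intro x
  refine W.kunneth_induction (p := fun x => proj (W.isInternal (X.prod Y)) n x =
    (∑ i ∈ Finset.range (n + 1), extOp W (proj (W.isInternal X) i)
      (proj (W.isInternal Y) (n - i))) x) ?_ ?_ x
  · intro a b ha hb
    rw [map_add, ha, hb, map_add]
  intro i j a ha b hb
  rw [LinearMap.sum_apply]
  have hm : W.map (fst X Y) a * W.map (snd X Y) b ∈ W.gr (X.prod Y) (i + j) :=
    W.mul_mem (W.map_mem _ ha) (W.map_mem _ hb)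
  have h0 : ∀ l ∈ Finset.range (n + 1), l ≠ i → extOp W (proj (W.isInternal X) l)
      (proj (W.isInternal Y) (n - l)) (W.map (fst X Y) a * W.map (snd X Y) b) = 0 := by
    intro l _ hl
    rw [extOp_tmul, proj_ne _ ha (Ne.symm hl), map_zero, zero_mul]
  by_cases hij : i + j = n
  · rw [Finset.sum_eq_single i h0]
    · subst hij
      rw [proj_same _ hm, extOp_tmul, proj_same _ ha, Nat.add_sub_cancel_left, proj_same _ hb]
    · intro h1
      exact absurd (Finset.mem_range.2 (by omega)) h1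
  · rw [proj_ne _ hm hij]
    symm
    apply Finset.sum_eq_zero
    intro l hl
    rw [Finset.mem_range] at hl
    by_cases hli : l = i
    · subst hli
      rw [extOp_tmul, proj_ne _ hb (by omega), map_zero, mul_zero]
    · exact h0 l (Finset.mem_range.2 hl) hli

/-- The supertrace. -/
noncomputable def str (W : WeilCohomology.{u, v} ops) (X : 𝒱.Obj)
    (B : Module.End W.K (W.H X)) : W.K := LinearMap.trace W.K _ (par (W.isInternal X) * B)

/-- The partial trace of an external product. -/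
lemma isPt_ext (B : Module.End W.K (W.H X)) (S : Module.End W.K (W.H Y)) :
    IsPt (extOp W B S) (str W Y S • B) := by
  intro A
  rw [mul_assoc (par (W.isInternal (X.prod Y))), extOp_mul, Pool.Agent.Y163.par_prod, extOp_mul,
    trace_extOp, mul_smul_comm, map_smul, smul_eq_mul, one_mul, mul_comm, mul_assoc]
  rfl

lemma IsPt.add {f f' : Module.End W.K (W.H (X.prod Y))} {B B' : Module.End W.K (W.H X)}
    (h : IsPt f B) (h' : IsPt f' B') : IsPt (f + f') (B + B') := by
  intro A
  rw [mul_add, mul_add, map_add, map_add, h A, h' A]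

lemma IsPt.zero : IsPt (0 : Module.End W.K (W.H (X.prod Y))) (0 : Module.End W.K (W.H X)) := by
  intro A
  rw [mul_zero, mul_zero, map_zero, map_zero]

lemma IsPt.sum {ι : Type*} {s : Finset ι} {f : ι → Module.End W.K (W.H (X.prod Y))}
    {B : ι → Module.End W.K (W.H X)} (h : ∀ i ∈ s, IsPt (f i) (B i)) :
    IsPt (∑ i ∈ s, f i) (∑ i ∈ s, B i) := by
  classical
  induction s using Finset.induction_on with
  | empty => rw [Finset.sum_empty, Finset.sum_empty]; exact IsPt.zero
  | insert a s ha ih =>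
    rw [Finset.sum_insert ha, Finset.sum_insert ha]
    exact IsPt.add (h a (Finset.mem_insert_self _ _))
      (ih fun i hi => h i (Finset.mem_insert_of_mem hi))

variable {T : QS W}

/-- **The contraction of a Kunneth projector of a product.** -/
theorem contraction {j : ℕ} (h : T.Kp (X.prod Y) j) {S : Module.End W.K (W.H Y)}
    (hS : T.Op Y Y S) : T.Op X X (∑ i ∈ Finset.range (j + 1),
      str W Y (proj (W.isInternal Y) (j - i) * S) • proj (W.isInternal X) i) := by
  have h1 : T.Op (X.prod Y) (X.prod Y) (proj (W.isInternal (X.prod Y)) j *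
      extOp W (1 : Module.End W.K (W.H X)) S) := h.mul (QS.Op.one.ext hS)
  obtain ⟨B, hB, hpt⟩ := h1.exists_pt
  have h2 : IsPt (proj (W.isInternal (X.prod Y)) j * extOp W (1 : Module.End W.K (W.H X)) S)
      (∑ i ∈ Finset.range (j + 1),
        str W Y (proj (W.isInternal Y) (j - i) * S) • proj (W.isInternal X) i) := by
    rw [proj_prod, Finset.sum_mul]
    refine IsPt.sum fun i _ => ?_
    rw [extOp_mul, mul_one]
    exact isPt_ext _ _
  rw [← hpt.unique h2]
  exact hB

/-- The contraction with an operator concentrated in one degree. -/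
theorem Kp.cut {j l : ℕ} (h : T.Kp (X.prod Y) j) (hl : l ≤ j) {S : Module.End W.K (W.H Y)}
    (hS : T.Op Y Y S) (hSl : ∀ m, m ≠ l → str W Y (proj (W.isInternal Y) m * S) = 0) {q : ℚ}
    (hq : q ≠ 0) (hSq : str W Y (proj (W.isInternal Y) l * S) = (q : W.K)) :
    T.Kp X (j - l) := by
  have h1 := contraction h hS
  rw [Finset.sum_eq_single (j - l)] at h1
  · rw [Nat.sub_sub_self hl, hSq] at h1
    have h2 := h1.smul q⁻¹
    rwa [smul_smul, ← Rat.cast_mul, inv_mul_cancel₀ hq, Rat.cast_one, one_smul] at h2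
  · intro i hi hne
    rw [Finset.mem_range] at hi
    rw [hSl (j - i) (by omega), zero_smul]
  · intro h2
    exact absurd (Finset.mem_range.2 (by omega)) h2

end Pool.Agent.Q8.KC
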